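import Pool.Agent.Helper19.PQ.Defs

/-!
# Project PQ (MP_19c155_gt, Q2): statements of the light pieces.  Not imported by any result.
Each piece is to be proved in a separate file of the prover; hints in /team-store/PQ_hints.md.
-/

open MeasureTheory Set Metric Filter Module Matrix
open scoped NNReal Topology RealInnerProductSpace ENNReal Real ContDiff Manifold

namespace Pool.Agent.Helper19.PQ.Spec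

open Pool.Agent.Helper19.PS (NP)

/-! ### PQ-1 -/

/-- the infimum is attained and is a lower bound. -/
theorem bet_le {d : ℕ} (A : Matrix (Fin d) (Fin d) ℝ) (a : Fin d → ℝ) (ξ : Fin 2 ⊕ Fin d → ℝ)
    (hξ : ξ ⬝ᵥ ξ = 1) : bet A a ≤ d - qd A a ξ := sorry

theorem exists_bet {d : ℕ} (A : Matrix (Fin d) (Fin d) ℝ) (a : Fin d → ℝ) :
    ∃ ξ : Fin 2 ⊕ Fin d → ℝ, ξ ⬝ᵥ ξ = 1 ∧ bet A a = d - qd A a ξ := sorry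

theorem continuous_bet {d : ℕ} (a : Fin d → ℝ) :
    Continuous (fun A : Matrix (Fin d) (Fin d) ℝ => bet A a) := sorry

/-! ### PQ-2 -/

theorem qd_eq {d : ℕ} (A : Matrix (Fin d) (Fin d) ℝ) (a : Fin d → ℝ) (R : Matrix (Fin d) (Fin d) ℝ)
    (hR : R * (1 + A * Aᵀ + vecMulVec a a) * Rᵀ = 1) (ξ : Fin 2 ⊕ Fin d → ℝ) :
    ∑ i, (NP (R * A) (R * (-1)) (R *ᵥ a) i *ᵥ ξ) ⬝ᵥ (NP (R * A) (R * (-1)) (R *ᵥ a) i *ᵥ ξ)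
      = qd A a ξ := sorry

/-! ### PQ-3 -/

/-- a skew matrix with `½ |N|² = 1` and `|N ξ| ≥ 1` is `c ∧ ξ`. -/
theorem skew_norm {ι : Type*} [Fintype ι] [DecidableEq ι] (N : Matrix ι ι ℝ) (hN : Nᵀ = -N)
    (htr : trace (Nᵀ * N) = 2) (ξ : ι → ℝ) (hξ : ξ ⬝ᵥ ξ = 1) :
    (N *ᵥ ξ) ⬝ᵥ (N *ᵥ ξ) ≤ 1 ∧
      ((N *ᵥ ξ) ⬝ᵥ (N *ᵥ ξ) = 1 → N = vecMulVec (N *ᵥ ξ) ξ - vecMulVec ξ (N *ᵥ ξ)) := sorry

theorem pencil_rigid {d : ℕ} (hd : 2 ≤ d) (A : Matrix (Fin d) (Fin d) ℝ) (a : Fin d → ℝ)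
    (ξ : Fin 2 ⊕ Fin d → ℝ) (hξ : ξ ≠ 0) (c : Fin d → Fin 2 ⊕ Fin d → ℝ)
    (h : ∀ k, NP A (-1) a k = vecMulVec (c k) ξ - vecMulVec ξ (c k)) :
    ∃ κ : ℝ, A = κ • (1 : Matrix (Fin d) (Fin d) ℝ) := sorry

/-! ### PQ-4 (uses PQ-2, PQ-3) -/

theorem qd_rigid {d : ℕ} (hd : 2 ≤ d) (A : Matrix (Fin d) (Fin d) ℝ) (a : Fin d → ℝ)
    (ξ : Fin 2 ⊕ Fin d → ℝ) (hξ : ξ ⬝ᵥ ξ = 1) (h : (d : ℝ) ≤ qd A a ξ) :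
    ∃ κ : ℝ, A = κ • (1 : Matrix (Fin d) (Fin d) ℝ) := sorry

section geometry

variable {E : Type*} [NormedAddCommGroup E] [InnerProductSpace ℝ E] [FiniteDimensional ℝ E]

/-! ### PQ-6 .. PQ-9: there is no `C²` unit field with `∇_Y V = κ Y` for all `Y ⊥ V` -/

/-- degree-0 homogeneous unit tangent fields of class `C²` which are umbilic on `V^⊥`. -/
structure Umb (V : E → E) (κ : E → ℝ) : Prop where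
  smooth : ContDiffOn ℝ 2 V {0}ᶜ
  homog : ∀ x : E, ∀ t : ℝ, 0 < t → V (t • x) = V x
  unit : ∀ x : E, x ≠ 0 → ‖V x‖ = 1
  tang : ∀ x : E, ⟪x, V x⟫ = 0
  umb : ∀ x : E, x ≠ 0 → ∀ Y : E, ⟪x, Y⟫ = 0 → ⟪V x, Y⟫ = 0 → fderiv ℝ V x Y = κ x • Y

/-- the vector `B = D_V V - κ V`. -/
noncomputable def BV (V : E → E) (κ : E → ℝ) (x : E) : E := fderiv ℝ V x (V x) - κ x • V x

/-! PQ-6 -/

theorem Umb.fderiv_eq {V : E → E} {κ : E → ℝ} (h : Umb V κ) {x : E} (hx : x ≠ 0) (δ : E) :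
    fderiv ℝ V x δ = κ x • δ - (κ x / ‖x‖ ^ 2 * ⟪x, δ⟫) • x + ⟪V x, δ⟫ • BV V κ x := sorry

theorem Umb.inner_BV {V : E → E} {κ : E → ℝ} (h : Umb V κ) {x : E} (hx : x ≠ 0) :
    ⟪x, BV V κ x⟫ = -1 ∧ ⟪V x, BV V κ x⟫ = -κ x := sorry

theorem Umb.contDiffOn_kap {V : E → E} {κ : E → ℝ} (h : Umb V κ) (hfr : 3 ≤ finrank ℝ E) :
    ContDiffOn ℝ 1 κ {0}ᶜ := sorry

theorem Umb.contDiffOn_BV {V : E → E} {κ : E → ℝ} (h : Umb V κ) (hfr : 3 ≤ finrank ℝ E) :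
    ContDiffOn ℝ 1 (BV V κ) {0}ᶜ := sorry

theorem Umb.homog_kap {V : E → E} {κ : E → ℝ} (h : Umb V κ) (hfr : 3 ≤ finrank ℝ E) {x : E}
    (hx : x ≠ 0) {t : ℝ} (ht : 0 < t) : κ (t • x) = t⁻¹ * κ x := sorry

/-! PQ-7 (uses PQ-6) -/

theorem Umb.fderiv_kap {V : E → E} {κ : E → ℝ} (h : Umb V κ) (hfr : 4 ≤ finrank ℝ E) {x : E}
    (hx : x ≠ 0) {Y : E} (hY : ⟪x, Y⟫ = 0) (hYV : ⟪V x, Y⟫ = 0) : fderiv ℝ κ x Y = 0 := sorry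

theorem Umb.fderiv_BV {V : E → E} {κ : E → ℝ} (h : Umb V κ) (hfr : 4 ≤ finrank ℝ E) {x : E}
    (hx : x ≠ 0) {Y : E} (hY : ⟪x, Y⟫ = 0) (hYV : ⟪V x, Y⟫ = 0) :
    fderiv ℝ (BV V κ) x Y = fderiv ℝ κ x (V x) • Y + ⟪BV V κ x, Y⟫ • BV V κ x := sorry

/-! PQ-8 -/

/-- the projection of `Y` to the orthogonal complement of `z` and `V z`. -/
noncomputable def WY (V : E → E) (Y z : E) : E := Y - (⟪z, Y⟫ / ‖z‖ ^ 2) • z - ⟪V z, Y⟫ • V z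

theorem exists_curve {V : E → E} (hV : ContDiffOn ℝ 1 V {0}ᶜ) (hu : ∀ x : E, x ≠ 0 → ‖V x‖ = 1)
    (ht : ∀ x : E, ⟪x, V x⟫ = 0) {x₀ : E} (hx₀ : ‖x₀‖ = 1) (Y : E) :
    ∃ (γ : ℝ → E) (ε : ℝ), 0 < ε ∧ γ 0 = x₀ ∧ ∀ t ∈ Ioo (-ε) ε, ‖γ t‖ = 1 ∧
      HasDerivAt γ (WY V Y (γ t)) t ∧ ⟪γ t, WY V Y (γ t)⟫ = 0 ∧ ⟪V (γ t), WY V Y (γ t)⟫ = 0 := sorry

/-! PQ-9 (uses PQ-6, PQ-7, PQ-8) -/

theorem Umb.false {V : E → E} {κ : E → ℝ} (h : Umb V κ) (hfr : 4 ≤ finrank ℝ E) : False := sorry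

end geometry

end Pool.Agent.Helper19.PQ.Spec
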